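import Pool.Agent.Uni.Nec10
import Pool.Agent.Uni.Suff

/-!
# Rings all of whose left modules embed in direct sums of uniserial modules

The definitions `IsUniserial`, `PropE`, `IsUniform`, `PropU`, `IsLeftSerialRing`,
`IsSerialRing`, `HomUniserial` and `StructAt` are in `Pool/Agent/Uni/Defs.lean`.
-/

namespace Pool.Agent.Results.MP_2df038_al.UniserialEmbedding

open Pool.Agent.Uni

universe u

/-- For a ring `R` the following are equivalent.

1. `R` has property (E): every left `R`-module embeds in a direct sum of uniserial modules.
2. `R` is left noetherian and every uniform left `R`-module is uniserial.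
3. `R` is left noetherian and there are an idempotent `e` of `R` and a two-sided ideal `F` with
   `F = eR`, `F` an artinian left `R`-module, `R ⧸ F` a serial ring, such that for every simple
   left `R`-module `S` the left `R`-module `Hom_R(J ∩ F, S)` is uniserial (`J` the Jacobson
   radical).
4. As 3, with `F` the largest artinian left ideal of `R`. -/
theorem result (R : Type u) [Ring R] :
    List.TFAE
      [PropE R,
       IsNoetherianRing R ∧ PropU R,
       IsNoetherianRing R ∧ ∃ (e : R) (F : Ideal R) (_ : F.IsTwoSided), StructAt R e F,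
       IsNoetherianRing R ∧ ∃ (e : R) (F : Ideal R) (_ : F.IsTwoSided), StructAt R e F ∧
         ∀ L : Ideal R, IsArtinian R L → L ≤ F] := by
  tfae_have 1 ↔ 2 := propE_iff
  tfae_have 2 → 4 := fun h => ⟨h.1, exists_structAt h.1 h.2⟩
  tfae_have 4 → 3 := fun h => ⟨h.1, by
    obtain ⟨e, F, hF, h1, -⟩ := h.2
    exact ⟨e, F, hF, h1⟩⟩
  tfae_have 3 → 2 := fun h => ⟨h.1, by
    obtain ⟨e, F, hF, h1⟩ := h.2
    exact propU_of_struct h.1 h1⟩
  tfae_finish

end Pool.Agent.Results.MP_2df038_al.UniserialEmbedding
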